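import Pool.Agent.Wyk.Final

/-!
# Slopes of the P-positions of Wythoff Nim with knight multiples

See `Pool/Agent/Wyk/Defs.lean` for `Wyk.Move`, `Wyk.IsP` and `Wyk.L`.
-/

namespace Pool.Agent.Results.MP_8f6224_co.SlopeBounds

open Wyk

/-- sanity check: a position is a P-position if and only if no move leads to a P-position -/
theorem isP_rec (p : ℕ × ℕ) : IsP p ↔ ∀ q, Move p q → ¬ IsP q := isP_iff p

open Classical in
/-- **Main result.** See the claim file. -/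
theorem result :
    -- (1) the algebraic numbers `A`, `B`
    ∃ A B : ℝ, (2.24772558 < A ∧ A < 2.24772559) ∧ (1.4777997 < B ∧ B < 1.4777998) ∧
      B * (A - 1) * (2 + 2 * A - A ^ 2) = A * (B ^ 2 - 1) ∧
      B * (2 * A - 1) * (2 + 2 * A - A ^ 2) = A * (A + 1) * (2 - B) * (2 * B - 1) ∧
      (∀ A' B' : ℝ, 2 < A' → A' < 3 → 1 < B' → B' < 2 →
        B' * (A' - 1) * (2 + 2 * A' - A' ^ 2) = A' * (B' ^ 2 - 1) →
        B' * (2 * A' - 1) * (2 + 2 * A' - A' ^ 2) = A' * (A' + 1) * (2 - B') * (2 * B' - 1) →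
        A' = A ∧ B' = B) ∧
      -- (2) the limit points above 2 form an interval `[l, u]` with `u ≥ A`; rigidity if `u = A`
      ∃ l u : ℝ, 2 + 1 / 2 ^ 100 ≤ l ∧ l ≤ 1 + Real.sqrt 3 ∧ l ≤ u ∧ A ≤ u ∧ u ≤ 3 ∧
        L ∩ Set.Ioi 2 = Set.Icc l u ∧
        (u = A → B ∈ L ∧ ∀ ε η : ℝ, 0 < ε → 0 < η → ∃ C : ℝ, ∀ T₁ T : ℕ, 0 < T₁ → T₁ ≤ T →
          ∑ a ∈ (Finset.Ioc T₁ T).filter (fun a => ∃ b, IsP (a, b) ∧ a < b ∧
            ε ≤ |(b : ℝ) / a - A| ∧ ε ≤ |(b : ℝ) / a - B|), 1 / (a : ℝ)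
          ≤ η * Real.log ((T : ℝ) / T₁) + C) := by
  obtain ⟨-, -, -, -, -, A, B, hA, hB, h1, h2, h3, h5, -⟩ := Wyk.main
  exact ⟨A, B, hA, hB, h1, h2, h3, h5⟩

end Pool.Agent.Results.MP_8f6224_co.SlopeBounds
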