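import Pool.Agent.Wyk.Final

/-!
# Which pairs of slopes are possible for the P-positions of Wythoff Nim with knight multiples

See `Pool/Agent/Wyk/Defs.lean` for `Wyk.Move`, `Wyk.IsP` and `Wyk.L`.
-/

namespace Pool.Agent.Results.MP_8f6224_co.TwoSlopes

open Wyk

/-- sanity check: a position is a P-position if and only if no move leads to a P-position -/
theorem isP_rec (p : ℕ × ℕ) : IsP p ↔ ∀ q, Move p q → ¬ IsP q := isP_iff p

theorem result :
    -- (1) there is a limit point at most 9/5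
    (∃ x ∈ L, 1 ≤ x ∧ x ≤ 9 / 5) ∧
    -- (2) restrictions if there are exactly two limit points
    (∀ α β : ℝ, β < α → L = {α, β} →
      2.2477 < α ∧ α ≤ 1 + Real.sqrt 3 ∧ 1 ≤ β ∧ β ≤ 9 / 5 ∧
      β * (α - 1) * (2 + 2 * α - α ^ 2) ≤ α * (β ^ 2 - 1) ∧
      β * (2 * α - 1) * (2 + 2 * α - α ^ 2) ≤ α * (α + 1) * (2 - β) * (2 * β - 1) ∧
      (α ≤ 2.27 → 1.46 < β ∧ β < 1.51)) := by
  obtain ⟨-, -, -, -, h5, A, B, hA, -, -, -, -, -, h6⟩ := Wyk.main
  refine ⟨h5, fun α β hαβ hL => ?_⟩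
  obtain ⟨h1, -, h2, h3, h4, h5, h6, h7⟩ := h6 α β hαβ hL
  refine ⟨?_, h2, h3, h4, h5, h6, h7⟩
  have := hA.1
  norm_num at this ⊢
  linarith

end Pool.Agent.Results.MP_8f6224_co.TwoSlopes
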