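import Pool.Agent.Wyk.Final

/-!
# The upper beam of P-positions of Wythoff Nim with knight multiples

See `Pool/Agent/Wyk/Defs.lean` for `Wyk.Move`, `Wyk.IsP`.
-/

namespace Pool.Agent.Results.MP_8f6224_co.UpperBeam

open Wyk

/-- sanity check: a position is a P-position if and only if no move leads to a P-position -/
theorem isP_rec (p : ℕ × ℕ) : IsP p ↔ ∀ q, Move p q → ¬ IsP q := isP_iff p

open Classical in
theorem result :
    -- (1) every column has exactly one P-position
    (∀ a : ℕ, ∃! b : ℕ, IsP (a, b)) ∧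
    -- (2) the exact form of the P-positions above the line of slope 2; none has slope more than 3
    (∃ u : ℕ → ℕ, StrictMono u ∧
      ∀ a b : ℕ, (IsP (a, b) ∧ 2 * a < b) ↔ ∃ k, a = u k ∧ b = 2 * u k + (k + 1)) ∧
    (∀ a b : ℕ, IsP (a, b) → a < b → b ≤ 3 * a) ∧
    -- (3) they have lower logarithmic density at least 0.24, uniformly in windows
    (∃ C : ℝ, ∀ T₁ T : ℕ, 0 < T₁ → T₁ ≤ T →
      (24 / 100) * Real.log ((T : ℝ) / T₁) - C ≤
        ∑ a ∈ (Finset.Ioc T₁ T).filter (fun a => ∃ b, IsP (a, b) ∧ 2 * a < b), 1 / (a : ℝ)) := by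
  obtain ⟨h1, h2, h3, h4, -⟩ := Wyk.main
  exact ⟨h1, h3, h2, h4⟩

end Pool.Agent.Results.MP_8f6224_co.UpperBeam
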